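import Mathlib
import Pool.Agent.NonLow.Final

set_option autoImplicit false

namespace Pool.Agent.Results.MP_eab2ec_lc.NonLow

/-- The halting set: the codes of pairs `⟨c, n⟩` such that the partial recursive function with
code `c` is defined at `n`. -/
def Halt (p : ℕ) : Prop :=
  ((Denumerable.ofNat Nat.Partrec.Code p.unpair.1).eval p.unpair.2).Dom

/-- The characteristic function of a set of natural numbers. -/
noncomputable def chi (A : ℕ → Prop) : ℕ → ℕ := fun n => by
  classical exact if A n then 1 else 0

/-- `X` is low: every set which is computably enumerable in `X`, that is, the domain of a partial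
function recursive in `X`, is Turing reducible to the halting set (equivalently, the Turing jump
of `X` is Turing reducible to the halting set). -/
def Low (X : ℕ → ℕ) : Prop :=
  ∀ f : ℕ →. ℕ, TuringReducible f (PFun.lift X) →
    TuringReducible (PFun.lift (chi fun n => (f n).Dom)) (PFun.lift (chi Halt))

/-- There is a linear order on `ℕ` such that a function `X` is Turing equivalent to some isomorphic
copy of the order if and only if `X` is not low: its degree spectrum is exactly the set of
non-low degrees. -/
theorem result :
    ∃ R : ℕ → ℕ → Bool,
      (∀ a, R a a = true) ∧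
      (∀ a b c, R a b = true → R b c = true → R a c = true) ∧
      (∀ a b, R a b = true → R b a = true → a = b) ∧
      (∀ a b, R a b = true ∨ R b a = true) ∧
      ∀ X : ℕ → ℕ, (¬ Low X ↔
        ∃ S : ℕ → ℕ → Bool,
          (∃ e : ℕ ≃ ℕ, ∀ a b, R a b = S (e a) (e b)) ∧
          TuringReducible
            (PFun.lift (fun p : ℕ => (S (Nat.unpair p).1 (Nat.unpair p).2).toNat))
            (PFun.lift X) ∧
          TuringReducible (PFun.lift X)
            (PFun.lift (fun p : ℕ => (S (Nat.unpair p).1 (Nat.unpair p).2).toNat))) :=
  Pool.Agent.NonLow.main

end Pool.Agent.Results.MP_eab2ec_lc.NonLow
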